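import Pool.Agent.TLU.Reps
import Pool.Agent.TLU.HurF

set_option autoImplicit false

/-!
# Joint unfaithfulness of the Temperley-Lieb modules with many through strands

For `n ≥ 4 k + 1` there is a nontrivial braid on `n` strands that acts trivially on the modules `V^n_(n-2j)` for all
`j ≤ k`, and on `V^n_0` if `n` is even, for every value of the parameter `A`.
-/

namespace Pool.Agent.Results.MP_3e2c45_gt.JointUnfaithful

open Pool.Agent.TLU

variable (n : ℕ)

/-- words as braids -/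
noncomputable def toBraid : FreeGroup ℕ →* Braid n :=
  FreeGroup.lift (fun i => if h : i < n - 1 then PresentedGroup.of ⟨i, h⟩ else 1)

theorem toBraid_of {i : ℕ} (h : i < n - 1) :
    toBraid n (FreeGroup.of i) = PresentedGroup.of ⟨i, h⟩ := by
  unfold toBraid; rw [FreeGroup.lift_apply_of, dif_pos h]

/-- the Hurwitz action as an action of the braid group -/
noncomputable def thB : Braid n →* Equiv.Perm (ℕ → Fin 6) :=
  PresentedGroup.toGroup (f := fun i : Fin (n - 1) => hs i) (by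
    rintro _ ⟨i, j, ⟨h, rfl⟩ | ⟨h, rfl⟩⟩
    · simp only [map_mul, map_inv, FreeGroup.lift_apply_of]
      exact mul_inv_eq_one.2 (hs_comm h)
    · have h1 := hs_braid (i : ℕ)
      rw [h] at h1
      simp only [map_mul, map_inv, FreeGroup.lift_apply_of]
      exact mul_inv_eq_one.2 h1)

theorem thB_toBraid {g : FreeGroup ℕ} (hg : g ∈ C (n - 1)) : thB n (toBraid n g) = th g := by
  refine lift_congr (f := (thB n).comp (toBraid n)) (g := th) (fun i hi => ?_) hg
  rw [MonoidHom.comp_apply, toBraid_of n hi]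
  unfold thB th
  rw [PresentedGroup.toGroup.of, FreeGroup.lift_apply_of]

theorem toBraid_ne {g : FreeGroup ℕ} (hg : g ∈ C (n - 1)) (h : th g ≠ 1) : toBraid n g ≠ 1 := by
  intro h1
  apply h
  rw [← thB_toBraid n hg, h1, map_one]

/-- the operators of the letters -/
noncomputable def sD (A : ℂ) (hA : A ≠ 0) (i : ℕ) : (Module.End ℂ (PM n →₀ ℂ))ˣ :=
  Units.map (D n (loopv A) : TL n (loopv A) →* Module.End ℂ (PM n →₀ ℂ)) (sigN n A hA i)

theorem sD_rep (A : ℂ) (hA : A ≠ 0) :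
    Rep A (loopv A) (n - 1) (fun i => (opr (loopv A) i : Module.End ℂ (PM n →₀ ℂ)))
      (sD n A hA) where
  tl := opr_tls _
  ne := hA
  par := rfl
  val i hi := by
    have h1 := (sigN_rep n A hA).val i hi
    show D n (loopv A) (sigN n A hA i : TL n (loopv A)) = _
    rw [h1, genN_val n _ hi, map_add, map_smul, D_gen, AlgHom.commutes]

theorem D_rho (A : ℂ) (hA : A ≠ 0) {g : FreeGroup ℕ} (hg : g ∈ C (n - 1)) :
    D n (loopv A) (rho n A hA (toBraid n g) : TL n (loopv A)) = vl (sD n A hA) g := by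
  have h1 : (Units.map (D n (loopv A) : TL n (loopv A) →* Module.End ℂ (PM n →₀ ℂ)))
      ((rho n A hA) (toBraid n g)) = FreeGroup.lift (sD n A hA) g := by
    refine lift_congr (f := ((Units.map (D n (loopv A) : TL n (loopv A) →*
      Module.End ℂ (PM n →₀ ℂ))).comp (rho n A hA)).comp (toBraid n))
      (g := FreeGroup.lift (sD n A hA)) (fun i hi => ?_) hg
    rw [MonoidHom.comp_apply, MonoidHom.comp_apply, toBraid_of n hi, rho_of,
      FreeGroup.lift_apply_of]
    unfold sD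
    rw [sigN_val n A hA hi]
  unfold vl
  rw [← h1]
  rfl

theorem V_lev {j k : ℕ} (h : j ≤ k) : V n j ≤ lev n (2 * k) := by
  apply Submodule.span_mono
  rintro v ⟨f, -, hf, rfl⟩
  refine ⟨f, ?_, rfl⟩
  have : (mt f.1).card = 2 * j := hf
  omega

theorem J_le_total {e : ℕ → Module.End ℂ (PM n →₀ ℂ)} (p l q : ℕ) {x : Module.End ℂ (PM n →₀ ℂ)}
    (hx : x ∈ J (fun i => e (p + i)) l q) : x ∈ J e l (p + q) := by
  induction hx using Submodule.span_induction with
  | mem x hx =>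
    obtain ⟨a, ha, y, hy, b, hb, rfl⟩ := hx
    have h0 : (1 : Module.End ℂ (PM n →₀ ℂ)) ∈ E e 0 (p - 1) := Set.mem_singleton _
    have h1 := E_mul h0 l q y hy
    rw [one_mul, Nat.zero_add] at h1
    exact Submodule.subset_span ⟨a, S_shift e p q ha, y, h1, b, S_shift e p q hb, rfl⟩
  | zero => exact zero_mem _
  | add x y _ _ hx hy => exact add_mem hx hy
  | smul c x _ hx => exact Submodule.smul_mem _ _ hx

/-- a word that is trivial modulo the products of `k + 1` non-adjacent generators acts trivially on the modules -/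
theorem act_of_mem (A : ℂ) (hA : A ≠ 0) {k j : ℕ} (hn : 1 ≤ n) (hj : j ≤ k) {g : FreeGroup ℕ}
    (hg : vl (sD n A hA) g - 1 ∈
      J (fun i => (opr (loopv A) i : Module.End ℂ (PM n →₀ ℂ))) (k + 1) (n - 1)) :
    ∀ v ∈ V n j, (vl (sD n A hA) g : Module.End ℂ (PM n →₀ ℂ)) v = v := by
  intro v hv
  have h1 := J_kill (loopv A) (m := 2 * k) hn (by omega) hg v (V_lev n hj hv)
  rw [LinearMap.sub_apply, sub_eq_zero] at h1
  exact h1

/-- the word for `n = 4 k + 1` -/
theorem main_odd {k : ℕ} (hk : 1 ≤ k) (hn : n = 4 * k + 1) :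
    ∃ β : Braid n, β ≠ 1 ∧ ∀ (A : ℂ) (hA : A ≠ 0) (j : ℕ), (j ≤ k ∨ 2 * j = n) →
      ∀ v ∈ V n j, D n (loopv A) (rho n A hA β : TL n (loopv A)) v = v := by
  obtain ⟨k', rfl⟩ : ∃ k', k = k' + 1 := ⟨k - 1, by omega⟩
  have hn1 : n - 1 = 4 * (k' + 1) := by omega
  have hW : W k' ∈ C (n - 1) := by rw [hn1]; exact W_mem k'
  refine ⟨toBraid n (W k'), toBraid_ne n hW (th_W_ne k'), ?_⟩
  intro A hA j hj v hv
  have hj' : j ≤ k' + 1 := by omega
  rw [D_rho n A hA hW]
  refine act_of_mem n A hA (k := k' + 1) (by omega) hj' ?_ v hv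
  have h1 := (sD_rep n A hA).main k' (by omega)
  rw [hn1]
  exact h1

/-- the word for `n ≥ 4 k + 2` -/
theorem main_even {k : ℕ} (hk : 1 ≤ k) (hn : 4 * k + 2 ≤ n) :
    ∃ β : Braid n, β ≠ 1 ∧ ∀ (A : ℂ) (hA : A ≠ 0) (j : ℕ), (j ≤ k ∨ 2 * j = n) →
      ∀ v ∈ V n j, D n (loopv A) (rho n A hA β : TL n (loopv A)) v = v := by
  obtain ⟨k', rfl⟩ : ∃ k', k = k' + 1 := ⟨k - 1, by omega⟩
  obtain ⟨a, ha⟩ : ∃ a, n - 1 = a + 4 * (k' + 1) := ⟨n - 1 - 4 * (k' + 1), by omega⟩
  have ha1 : 1 ≤ a := by omega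
  set F := FF (a + 4 * (k' + 1)) with hF
  set Y := sh a (W k') with hY
  have hFm : F ∈ C (n - 1) := by rw [ha]; exact FF_mem _
  have hYm : Y ∈ C (n - 1) := by rw [ha]; exact sh_mem a (W_mem k')
  have hg : F * Y * F⁻¹ * Y⁻¹ ∈ C (n - 1) :=
    mul_mem (mul_mem (mul_mem hFm hYm) (inv_mem hFm)) (inv_mem hYm)
  refine ⟨toBraid n (F * Y * F⁻¹ * Y⁻¹), toBraid_ne n hg (th_FW_ne k' a ha1), ?_⟩
  intro A hA j hj v hv
  rw [D_rho n A hA hg]
  have hr := sD_rep n A hA
  set s := sD n A hA with hs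
  have hY1 : vl s Y - 1 ∈
      J (fun i => (opr (loopv A) i : Module.End ℂ (PM n →₀ ℂ))) (k' + 2) (n - 1) := by
    have h1 := (hr.shift a).main k' (by omega)
    rw [← vl_sh] at h1
    rw [ha]
    exact J_le_total n a (k' + 2) (4 * (k' + 1)) h1
  rcases hj with hj | hj
  · refine act_of_mem n A hA (k := k' + 1) (by omega) hj ?_ v hv
    exact hr.conj_mem hFm hYm hY1
  · -- `V^n_0`
    obtain ⟨m, hm⟩ : ∃ m, n - 1 = 2 * m + 1 := ⟨j - 1, by omega⟩
    have key : ∀ g : PM n, (∀ t, 2 * t + 1 < n → Arc g (2 * t)) →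
        ∀ x ∈ S (fun i => (opr (loopv A) i : Module.End ℂ (PM n →₀ ℂ))) (n - 1),
        (vl s (F * Y * F⁻¹ * Y⁻¹) : Module.End ℂ (PM n →₀ ℂ)) (x (Finsupp.single g 1)) =
          x (Finsupp.single g 1) := by
      intro g hgc x hx
      set u : PM n →₀ ℂ := Finsupp.single g 1 with hu
      have hsc : ∀ y ∈ S (fun i => (opr (loopv A) i : Module.End ℂ (PM n →₀ ℂ))) (n - 1),
          (vl s F : Module.End ℂ (PM n →₀ ℂ)) (y u) = (A⁻¹ ^ 6) • y u := by
        intro y hy
        have h1 := hr.scal (v := u) (m := m) (by omega) hm.symm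
          (fun t ht => arc_cup (loopv A) (hgc t (by omega))) hy
        rw [hF, ← ha]
        exact h1
      have hinv : ∀ y ∈ S (fun i => (opr (loopv A) i : Module.End ℂ (PM n →₀ ℂ))) (n - 1),
          (vl s F⁻¹ : Module.End ℂ (PM n →₀ ℂ)) (y u) = (A ^ 6) • y u := by
        intro y hy
        have h1 := congrArg (fun z => (vl s F⁻¹ : Module.End ℂ (PM n →₀ ℂ)) z) (hsc y hy)
        have h2 : (vl s F⁻¹ : Module.End ℂ (PM n →₀ ℂ))
            ((vl s F : Module.End ℂ (PM n →₀ ℂ)) (y u)) = y u := by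
          rw [← vl_mul_apply, inv_mul_cancel, vl_one]; rfl
        have h3 : y u = (A⁻¹ ^ 6) • (vl s F⁻¹ : Module.End ℂ (PM n →₀ ℂ)) (y u) := by
          rw [← map_smul]
          exact h2.symm.trans h1
        have h4 := congrArg (fun z => (A ^ 6) • z) h3
        have h5 : (A ^ 6) • ((A⁻¹ ^ 6) • (vl s F⁻¹ : Module.End ℂ (PM n →₀ ℂ)) (y u)) =
            (vl s F⁻¹ : Module.End ℂ (PM n →₀ ℂ)) (y u) := by
          rw [smul_smul, ← mul_pow, mul_inv_cancel₀ hA, one_pow, one_smul]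
        exact h5.symm.trans h4.symm
      rw [vl_mul_apply, vl_mul_apply, vl_mul_apply]
      have h6 : (vl s Y⁻¹ : Module.End ℂ (PM n →₀ ℂ)) (x u) =
          ((vl s Y⁻¹ : Module.End ℂ (PM n →₀ ℂ)) * x) u := rfl
      rw [h6, hinv _ (mul_mem (hr.vl_mem le_rfl (inv_mem hYm)) hx)]
      have h7 : (vl s Y : Module.End ℂ (PM n →₀ ℂ)) ((A ^ 6) •
          ((vl s Y⁻¹ : Module.End ℂ (PM n →₀ ℂ)) * x) u) = (A ^ 6) • x u := by
        rw [map_smul]
        congr 1
        have h8 : (vl s Y : Module.End ℂ (PM n →₀ ℂ))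
            (((vl s Y⁻¹ : Module.End ℂ (PM n →₀ ℂ)) * x) u) =
            ((vl s Y : Module.End ℂ (PM n →₀ ℂ)) * vl s Y⁻¹ * x) u := rfl
        rw [h8, vl_mul_inv, one_mul]
      rw [h7, map_smul, hsc x hx, smul_smul, ← mul_pow, mul_inv_cancel₀ hA, one_pow, one_smul]
    induction hv using Submodule.span_induction with
    | mem v hv =>
      obtain ⟨f, hf, hfc, rfl⟩ := hv
      have hp : ∀ x, f.1 x ≠ x := by
        intro x
        have h1 : Finset.univ.filter (fun x => f.1 x ≠ x) = Finset.univ := by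
          rw [← Finset.card_eq_iff_eq_univ, hfc, Fintype.card_fin, hj]
        have h2 : x ∈ Finset.univ.filter (fun x => f.1 x ≠ x) := by rw [h1]; simp
        simpa using h2
      obtain ⟨g, hgc, x, hx, hxe⟩ := reach (loopv A) hf hp
      rw [hxe]
      exact key g hgc x hx
    | zero => rw [map_zero]
    | add x y _ _ hx hy => rw [map_add, hx, hy]
    | smul c x _ hx => rw [map_smul, hx]

/-- For `n ≥ 4 k + 1` there is a nontrivial braid on `n` strands that acts trivially, for every value of the parameter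
`A`, on the modules `V^n_(n-2j)` for all `j ≤ k`, and on `V^n_0` if `n` is even. -/
theorem result (k n : ℕ) (hk : 1 ≤ k) (hn : 4 * k + 1 ≤ n) :
    ∃ β : Braid n, β ≠ 1 ∧ ∀ (A : ℂ) (hA : A ≠ 0), ∃ D : Action n (loopv A),
      IsDiag n (loopv A) D ∧ ∀ j : ℕ, (j ≤ k ∨ 2 * j = n) → Fixes n A hA D β (V n j) := by
  rcases Nat.lt_or_eq_of_le hn with h | h
  · obtain ⟨β, hβ, H⟩ := main_even n hk h
    exact ⟨β, hβ, fun A hA => ⟨D n (loopv A), D_gen n (loopv A), H A hA⟩⟩
  · obtain ⟨β, hβ, H⟩ := main_odd n hk h.symm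
    exact ⟨β, hβ, fun A hA => ⟨D n (loopv A), D_gen n (loopv A), H A hA⟩⟩

end Pool.Agent.Results.MP_3e2c45_gt.JointUnfaithful
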